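import Pool.Agent.H48.RN.Stmts1

/-!
# Project RN: module ANB
-/

set_option autoImplicit false
set_option linter.unusedSectionVars false

namespace Pool.RN

open Polynomial

section

variable {F : Type} [Field F] [Fintype F]

theorem ANB_pf {c : F} (hc : c ≠ 0) {g : F[X]} (hg : g ≠ 0) : pf (C c * g) = pf g := by
  have hc' : IsUnit (C c) := isUnit_C.2 (isUnit_iff_ne_zero.2 hc)
  ext Q
  rw [mem_pf (mul_ne_zero hc'.ne_zero hg), mem_pf hg]
  have : Q ∣ C c * g ↔ Q ∣ g := by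
    constructor
    · intro h
      exact (hc'.dvd_mul_left).1 h
    · intro h
      exact h.mul_left _
  rw [this]

theorem ANB_wf {c : F} (hc : c ≠ 0) {g : F[X]} (hg : g ≠ 0) (φ : F[X] → ℂ) :
    wf φ (C c * g) = wf φ g := by
  unfold wf
  rw [ANB_pf hc hg]

theorem ANB_unit {M : F[X]} {c : F} (hc : c ≠ 0) : IsUnit (AdjoinRoot.mk M (C c)) :=
  (isUnit_C.2 (isUnit_iff_ne_zero.2 hc)).map _

open Classical in
theorem ANB_fib {M : F[X]} (φ : F[X] → ℂ) (w : ℕ → ℂ) (a : AdjoinRoot M) (D i : ℕ) (hi : i ≤ D)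
    {c : F} (hc : c ≠ 0) :
    ∑ f ∈ ((Pol F D).filter (fun f => AdjoinRoot.mk M f = a)).filter
        (fun f => (f.leadingCoeff, f.natDegree) = (c, i)), w f.natDegree * wf φ f =
      w i * ∑ g ∈ (Mon F i).filter (fun g => AdjoinRoot.mk M g = AdjoinRoot.mk M (C c⁻¹) * a),
        wf φ g := by
  rw [Finset.mul_sum]
  have hcc : C c⁻¹ * C c = (1 : F[X]) := by rw [← C_mul, inv_mul_cancel₀ hc, C_1]
  have hcc' : C c * C c⁻¹ = (1 : F[X]) := by rw [← C_mul, mul_inv_cancel₀ hc, C_1]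
  have hmk : ∀ g : F[X], AdjoinRoot.mk M (C c * g) = a ↔
      AdjoinRoot.mk M g = AdjoinRoot.mk M (C c⁻¹) * a := by
    intro g
    constructor
    · rintro rfl
      rw [← map_mul, ← mul_assoc, hcc, one_mul]
    · intro h
      rw [map_mul, h, ← mul_assoc, ← map_mul, hcc', map_one, one_mul]
  symm
  refine Finset.sum_bij (fun g _ => C c * g) ?_ ?_ ?_ ?_
  · intro g hg
    rw [Finset.mem_filter, mem_Mon] at hg
    rw [Finset.mem_filter, Finset.mem_filter, mem_Pol, hmk]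
    have h1 : (C c * g).natDegree = i := by rw [natDegree_C_mul hc, hg.1.2]
    refine ⟨⟨by omega, hg.2⟩, ?_⟩
    rw [h1, leadingCoeff_mul, leadingCoeff_C, hg.1.1.leadingCoeff, mul_one]
  · intro g _ g' _ h
    exact mul_left_cancel₀ (C_ne_zero.2 hc) h
  · intro f hf
    rw [Finset.mem_filter, Finset.mem_filter, mem_Pol, Prod.mk.injEq] at hf
    obtain ⟨⟨h1, h2⟩, h3, h4⟩ := hf
    refine ⟨C c⁻¹ * f, ?_, ?_⟩
    · rw [Finset.mem_filter, mem_Mon]
      refine ⟨⟨?_, ?_⟩, ?_⟩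
      · unfold Monic
        rw [leadingCoeff_mul, leadingCoeff_C, h3, inv_mul_cancel₀ hc]
      · rw [natDegree_C_mul (inv_ne_zero hc), h4]
      · rw [map_mul, h2]
    · rw [← mul_assoc, hcc', one_mul]
  · intro g hg
    rw [Finset.mem_filter, mem_Mon] at hg
    rw [natDegree_C_mul hc, hg.1.2, ANB_wf hc hg.1.1.ne_zero]

theorem ANB_poly (q ε : ℝ) (hq : 2 ≤ q) (hε : 0 < ε) : ∃ C : ℝ, 0 < C ∧ ∀ D : ℕ,
    ((D : ℝ) + 1) ^ 2 ≤ C * q ^ (ε * D) := by
  have hlog : 0 < Real.log q := Real.log_pos (by linarith)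
  set s := ε * Real.log q with hs
  have hs0 : 0 < s := mul_pos hε hlog
  refine ⟨4 / s ^ 2 + 2, by positivity, ?_⟩
  intro D
  have h1 : q ^ (ε * D) = Real.exp (s * D) := by
    rw [Real.rpow_def_of_pos (by linarith)]
    congr 1
    rw [hs]; ring
  rw [h1]
  have hD : (0 : ℝ) ≤ D := Nat.cast_nonneg D
  have h2 := Real.quadratic_le_exp_of_nonneg (mul_nonneg hs0.le hD)
  have h3 : (s * D) ^ 2 / 2 ≤ Real.exp (s * D) := by nlinarith [mul_nonneg hs0.le hD]
  have h4 : 1 ≤ Real.exp (s * D) := by nlinarith [mul_nonneg hs0.le hD, sq_nonneg (s * D)]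
  have h5 : 4 / s ^ 2 * ((s * D) ^ 2 / 2) = 2 * D ^ 2 := by field_simp; ring
  have h6 : 4 / s ^ 2 * ((s * D) ^ 2 / 2) ≤ 4 / s ^ 2 * Real.exp (s * D) :=
    mul_le_mul_of_nonneg_left h3 (by positivity)
  nlinarith [sq_nonneg ((D : ℝ) - 1)]

end

open Classical in
theorem s_ANB (F : Type) [Field F] [Fintype F] (hANA : S_ANA F) : S_ANB F := by
  intro ε hε
  obtain ⟨C, hC, hANA⟩ := hANA (ε / 2) (by positivity)
  have hq : (2 : ℝ) ≤ Fintype.card F := by
    exact_mod_cast Fintype.one_lt_card (α := F)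
  obtain ⟨C', hC', hpoly⟩ := ANB_poly (Fintype.card F) (ε / 2) hq (by positivity)
  set q : ℝ := (Fintype.card F : ℝ) with hqdef
  refine ⟨q ^ 2 * C' * C, by positivity, ?_⟩
  intro M hM hm χ₀ l hχ hl D w hw T hT
  have hM0 : M ≠ 0 := hM.ne_zero
  have hnt : Nontrivial (AdjoinRoot M) := by
    apply AdjoinRoot.nontrivial
    rw [degree_eq_natDegree hM0]
    exact_mod_cast (by omega : M.natDegree ≠ 0)
  set S : Finset (F × ℕ) := (Finset.univ.erase (0 : F)) ×ˢ Finset.range (D + 1) with hS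
  -- the decomposition
  have h1 : ∀ a ∈ T, ∑ f ∈ (Pol F D).filter (fun f => AdjoinRoot.mk M f = a),
        w f.natDegree * wf (cc χ₀ l) f = ∑ p ∈ S, w p.2 *
          ∑ g ∈ (Mon F p.2).filter (fun g => AdjoinRoot.mk M g =
            AdjoinRoot.mk M (Polynomial.C p.1⁻¹) * a), wf (cc χ₀ l) g := by
    intro a ha
    rw [← Finset.sum_fiberwise_of_maps_to (t := S) (g := fun f => (f.leadingCoeff, f.natDegree))]
    · apply Finset.sum_congr rfl
      intro p hp
      rw [hS, Finset.mem_product, Finset.mem_erase, Finset.mem_range] at hp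
      exact ANB_fib (cc χ₀ l) w a D p.2 (by omega) hp.1.1
    · intro f hf
      rw [Finset.mem_filter, mem_Pol] at hf
      have hf0 : f ≠ 0 := by
        rintro rfl
        rw [map_zero] at hf
        exact (hT a ha).ne_zero hf.2.symm
      rw [hS, Finset.mem_product, Finset.mem_erase, Finset.mem_range]
      exact ⟨⟨leadingCoeff_ne_zero.2 hf0, Finset.mem_univ _⟩, by simpa using Nat.lt_succ_of_le hf.1⟩
  have hcardS : (S.card : ℝ) ≤ q * (D + 1) := by
    rw [hS, Finset.card_product, Finset.card_range]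
    push_cast
    apply mul_le_mul_of_nonneg_right _ (by positivity)
    rw [hqdef]
    have : (Finset.univ.erase (0 : F)).card ≤ Fintype.card F := Finset.card_le_univ _
    exact_mod_cast this
  have h2 : ∀ a ∈ T, ‖∑ f ∈ (Pol F D).filter (fun f => AdjoinRoot.mk M f = a),
        w f.natDegree * wf (cc χ₀ l) f‖ ^ 2 ≤ (q * (D + 1)) * ∑ p ∈ S,
          ‖∑ g ∈ (Mon F p.2).filter (fun g => AdjoinRoot.mk M g =
            AdjoinRoot.mk M (Polynomial.C p.1⁻¹) * a), wf (cc χ₀ l) g‖ ^ 2 := by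
    intro a ha
    rw [h1 a ha]
    have h3 : ‖∑ p ∈ S, w p.2 *
          ∑ g ∈ (Mon F p.2).filter (fun g => AdjoinRoot.mk M g =
            AdjoinRoot.mk M (Polynomial.C p.1⁻¹) * a), wf (cc χ₀ l) g‖ ≤
          ∑ p ∈ S, ‖∑ g ∈ (Mon F p.2).filter (fun g => AdjoinRoot.mk M g =
            AdjoinRoot.mk M (Polynomial.C p.1⁻¹) * a), wf (cc χ₀ l) g‖ := by
      refine (norm_sum_le _ _).trans (Finset.sum_le_sum fun p _ => ?_)
      rw [norm_mul]
      calc _ ≤ 1 * _ := mul_le_mul_of_nonneg_right (hw _) (norm_nonneg _)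
        _ = _ := one_mul _
    calc _ ≤ _ := pow_le_pow_left₀ (norm_nonneg _) h3 2
      _ ≤ (S.card : ℝ) * _ := sq_sum_le_card_mul_sum_sq
      _ ≤ _ := mul_le_mul_of_nonneg_right hcardS (Finset.sum_nonneg fun _ _ => sq_nonneg _)
  refine (Finset.sum_le_sum h2).trans ?_
  rw [← Finset.mul_sum, Finset.sum_comm]
  have h4 : ∀ p ∈ S, ∑ a ∈ T, ‖∑ g ∈ (Mon F p.2).filter (fun g => AdjoinRoot.mk M g =
            AdjoinRoot.mk M (Polynomial.C p.1⁻¹) * a), wf (cc χ₀ l) g‖ ^ 2 ≤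
            C * q ^ ((1 + ε / 2) * D + ε / 2 * M.natDegree) := by
    intro p hp
    rw [hS, Finset.mem_product, Finset.mem_erase, Finset.mem_range] at hp
    have hu : IsUnit (AdjoinRoot.mk M (Polynomial.C p.1⁻¹)) := ANB_unit (inv_ne_zero hp.1.1)
    have h5 := hANA M hM hm χ₀ l hχ hl p.2 (T.image (fun a => AdjoinRoot.mk M (Polynomial.C p.1⁻¹) * a))
      (by
        intro a ha
        rw [Finset.mem_image] at ha
        obtain ⟨b, hb, rfl⟩ := ha
        exact hu.mul (hT b hb))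
    rw [Finset.sum_image (fun a _ b _ h => hu.mul_left_cancel h)] at h5
    refine h5.trans (mul_le_mul_of_nonneg_left ?_ hC.le)
    apply Real.rpow_le_rpow_of_exponent_le (by linarith)
    have h6 : (p.2 : ℝ) ≤ D := by exact_mod_cast (by omega : p.2 ≤ D)
    have h7 : (1 + ε / 2) * (p.2 : ℝ) ≤ (1 + ε / 2) * D :=
      mul_le_mul_of_nonneg_left h6 (by positivity)
    linarith
  have h5 : ∑ p ∈ S, ∑ a ∈ T, ‖∑ g ∈ (Mon F p.2).filter (fun g => AdjoinRoot.mk M g =
            AdjoinRoot.mk M (Polynomial.C p.1⁻¹) * a), wf (cc χ₀ l) g‖ ^ 2 ≤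
            (q * (D + 1)) * (C * q ^ ((1 + ε / 2) * D + ε / 2 * M.natDegree)) := by
    refine (Finset.sum_le_sum h4).trans ?_
    rw [Finset.sum_const, nsmul_eq_mul]
    exact mul_le_mul_of_nonneg_right hcardS (by positivity)
  have h6 : 0 ≤ q * ((D : ℝ) + 1) := by positivity
  refine (mul_le_mul_of_nonneg_left h5 h6).trans ?_
  have h7 := hpoly D
  have h8 : q ^ (ε / 2 * (D : ℝ)) * q ^ ((1 + ε / 2) * D + ε / 2 * M.natDegree) ≤
      q ^ ((1 + ε) * D + ε * M.natDegree) := by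
    rw [← Real.rpow_add (by linarith)]
    apply Real.rpow_le_rpow_of_exponent_le (by linarith)
    have : (0 : ℝ) ≤ ε / 2 * M.natDegree := by positivity
    linarith
  calc q * ((D : ℝ) + 1) * (q * (D + 1) * (C * q ^ ((1 + ε / 2) * D + ε / 2 * M.natDegree)))
      = q ^ 2 * C * ((D : ℝ) + 1) ^ 2 * q ^ ((1 + ε / 2) * D + ε / 2 * M.natDegree) := by ring
    _ ≤ q ^ 2 * C * (C' * q ^ (ε / 2 * (D : ℝ))) * q ^ ((1 + ε / 2) * D + ε / 2 * M.natDegree) := by
        gcongr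
    _ = q ^ 2 * C' * C * (q ^ (ε / 2 * (D : ℝ)) * q ^ ((1 + ε / 2) * D + ε / 2 * M.natDegree)) := by
        ring
    _ ≤ _ := by gcongr

end Pool.RN
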