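import Pool.Agent.H48.RN.Stmts2

/-!
# Project RN: module DUP
-/

set_option autoImplicit false
set_option linter.unusedSectionVars false

namespace Pool.RN

open Polynomial

section

variable {K : Type} [Field K]

theorem DUP_lin {V A B : Type} [AddCommGroup V] [Module K V] [AddCommGroup A] [Module K A]
    [Module.Finite K A] [AddCommGroup B] [Module K B] (W : Submodule K V) (e : V →ₗ[K] A)
    (g : V →ₗ[K] B) (h : ∀ v ∈ W, e v = 0 → g v = 0) :
    Module.Finite K (W.map g) ∧ Module.finrank K (W.map g) ≤ Module.finrank K A := by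
  set f' : W →ₗ[K] A := e.domRestrict W with hf'
  set g' : W →ₗ[K] B := g.domRestrict W with hg'
  have hker : LinearMap.ker f' ≤ LinearMap.ker g' := by
    intro v hv
    rw [LinearMap.mem_ker] at hv ⊢
    exact h v.1 v.2 hv
  have h1 : W.map g = LinearMap.range ((LinearMap.ker f').liftQ g' hker) := by
    rw [Submodule.range_liftQ, hg', LinearMap.range_domRestrict]
  have h2 : Module.Finite K (W ⧸ LinearMap.ker f') :=
    Module.Finite.equiv f'.quotKerEquivRange.symm
  rw [h1]
  refine ⟨inferInstance, ?_⟩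
  refine (LinearMap.finrank_range_le _).trans ?_
  rw [f'.quotKerEquivRange.finrank_eq]
  exact Submodule.finrank_le _

end

theorem s_DUP {F k : Type} [Field F] [Fintype F] [Field k] [Algebra F k] [IsAlgClosed k]
    [Algebra.IsAlgebraic F k] (M : F[X]) (Y : (EE k)[X]) (hM : M.Monic) (hm : 1 ≤ M.natDegree)
    (_hY : Good M Y)
    (hZER : S_ZER M Y) (hPTE : S_PTE M Y) (_hPTU : S_PTU M Y) (_hPTG : S_PTG M Y)
    (hPTH : S_PTH M Y) (_hACT : S_ACT F) : S_DUP M Y := by
  classical
  intro d
  have hq : 1 ≤ Fintype.card F - 1 := by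
    have := Fintype.one_lt_card (α := F)
    omega
  set n : ℕ := d / (Fintype.card F - 1) + 1 with hn
  have hn1 : (Fintype.card F - 1) * n ≤ d + (Fintype.card F - 1) := by
    rw [hn, mul_add, mul_one]
    have := Nat.mul_div_le d (Fintype.card F - 1)
    omega
  have hn2 : d < (Fintype.card F - 1) * n := by
    rw [hn]
    exact Nat.lt_mul_div_succ d (by omega)
  have hinf : Infinite k := IsAlgClosed.instInfinite
  have hfin : {x : k | aeval x M = 0}.Finite := by
    have h1 : (M.map (algebraMap F k)) ≠ 0 := (hM.map _).ne_zero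
    refine (finite_setOf_isRoot h1).subset ?_
    intro x hx
    rw [Set.mem_setOf_eq] at hx ⊢
    rw [IsRoot.def, eval_map_algebraMap]
    exact hx
  have hinf2 : {x : k | aeval x M ≠ 0}.Infinite := by
    have := hfin.infinite_compl
    exact this
  obtain ⟨S, hS1, hS2⟩ := hinf2.exists_subset_card_eq n
  choose Y1 hY1 using hPTE
  set e : PP k M.natDegree →ₗ[k] ((↥S × ↥(HH M Y)) → k) :=
    LinearMap.pi (fun p => (ev (k := k) M.natDegree (p.1 : k)
      (act M (p.2 : F[X]) (Y1 p.1))).toLinearMap) with he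
  have hkey : ∀ P ∈ WW F k M.natDegree d, e P = 0 →
      (ev (k := k) M.natDegree (xx F k) Y).toLinearMap P = 0 := by
    intro P hP h0
    by_contra hne
    have h1 := hZER d P hP hne S ?_
    · rw [hS2] at h1
      omega
    · intro x1 hx1
      have h2 : aeval x1 M ≠ 0 := hS1 (Finset.mem_coe.2 hx1)
      refine ⟨h2, ?_⟩
      intro Y2 hY2
      obtain ⟨g, hg, rfl⟩ := hPTH x1 (Y1 x1) Y2 h2 (hY1 x1) hY2
      have h3 := congrFun h0 (⟨x1, hx1⟩, ⟨g, hg⟩)
      exact h3
  obtain ⟨h1, h2⟩ := DUP_lin (WW F k M.natDegree d) e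
    (ev (k := k) M.natDegree (xx F k) Y).toLinearMap hkey
  refine ⟨h1, ?_⟩
  have h3 : Module.finrank k ((↥S × ↥(HH M Y)) → k) = n * (HH M Y).card := by
    rw [Module.finrank_fintype_fun_eq_card, Fintype.card_prod, Fintype.card_coe, Fintype.card_coe,
      hS2]
  rw [h3] at h2
  calc (Fintype.card F - 1) * Module.finrank k (RR F M.natDegree Y d)
      ≤ (Fintype.card F - 1) * (n * (HH M Y).card) := Nat.mul_le_mul_left _ h2
    _ = (HH M Y).card * ((Fintype.card F - 1) * n) := by ring
    _ ≤ _ := Nat.mul_le_mul_left _ hn1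

end Pool.RN
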