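import Pool.Agent.H48.RN.Stmts3

/-!
# Project RN: module FB2
-/

set_option autoImplicit false
set_option linter.unusedSectionVars false

namespace Pool.RN

open Polynomial

section

variable {F : Type} [Field F] [Fintype F]

theorem FB2_c4 (h : (2 : F) = 0) (W : WeierstrassCurve F[X]) : W.c₄ = W.a₁ ^ 4 := by
  have h2 : (2 : F[X]) = 0 := by
    have : (C (2 : F)) = (2 : F[X]) := map_ofNat C 2
    rw [← this, h, C_0]
  simp only [WeierstrassCurve.c₄, WeierstrassCurve.b₂, WeierstrassCurve.b₄]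
  linear_combination (4 * W.a₁ ^ 2 * W.a₂ + 8 * W.a₂ ^ 2 - 12 * (2 * W.a₄ + W.a₁ * W.a₃)) * h2

theorem FB2_deg {p : F[X]} {n m : ℕ} (hp : p.natDegree ≤ n) (h : (p ^ m).coeff (m * n) ≠ 0)
    (hm : m ≠ 0) : p.natDegree = n := by
  rw [coeff_pow_of_natDegree_le hp] at h
  have h1 : p.coeff n ≠ 0 := fun h2 => h (by rw [h2, zero_pow hm])
  exact le_antisymm hp (le_natDegree_of_ne_zero h1)

/-- A monic polynomial associated to `b`. -/
theorem FB2_monic {b : F[X]} (hb : b ≠ 0) : ∃ M : F[X], M.Monic ∧ b ∣ M ∧ M ∣ b := by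
  classical
  exact ⟨normalize b, monic_normalize hb, (associated_normalize b).dvd,
    (associated_normalize b).symm.dvd⟩

theorem FB2_natDegree {b M : F[X]} (hb : b ≠ 0) (hM : M ≠ 0) (h1 : b ∣ M) (h2 : M ∣ b) :
    M.natDegree = b.natDegree :=
  le_antisymm (natDegree_le_of_dvd h2 hb) (natDegree_le_of_dvd h1 hM)

/-- The fibre sum in terms of the complex sums. -/
theorem FB2_sum (n : ℕ) (a₁ a₂ a₃ : F[X]) (T : Finset F[X]) (b : F[X]) (cl : F[X] → F[X])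
    (w : ℂ) (φ : F[X] → ℂ)
    (hFib : Fib n a₁ a₂ a₃ = T ×ˢ Pol F (6 * n))
    (hΔ : ∀ a₄ a₆, (WeierstrassCurve.mk a₁ a₂ a₃ a₄ a₆).Δ = b * a₆ + cl a₄)
    (hR : ∀ a₄ a₆ : F[X], WeierstrassCurve.mk a₁ a₂ a₃ a₄ a₆ ∈ Fam F n →
      ((rootNumber n (WeierstrassCurve.mk a₁ a₂ a₃ a₄ a₆) : ℤ) : ℂ) =
        (if (WeierstrassCurve.mk a₁ a₂ a₃ a₄ a₆).Δ.natDegree = 12 * n then 1 else w) *
          φ (WeierstrassCurve.mk a₁ a₂ a₃ a₄ a₆).Δ) :
    |∑ p ∈ Fib n a₁ a₂ a₃, (rootNumber n (WeierstrassCurve.mk a₁ a₂ a₃ p.1 p.2) : ℝ)| ≤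
      ∑ a ∈ T, ‖∑ a₆ ∈ Pol F (6 * n), (if (b * a₆ + cl a).natDegree = 12 * n then 1 else w) *
        φ (b * a₆ + cl a)‖ := by
  classical
  have h1 : ((∑ p ∈ Fib n a₁ a₂ a₃,
      (rootNumber n (WeierstrassCurve.mk a₁ a₂ a₃ p.1 p.2) : ℝ) : ℝ) : ℂ) =
      ∑ a ∈ T, ∑ a₆ ∈ Pol F (6 * n), (if (b * a₆ + cl a).natDegree = 12 * n then 1 else w) *
        φ (b * a₆ + cl a) := by
    rw [← Finset.sum_product', ← hFib]
    push_cast
    apply Finset.sum_congr rfl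
    intro p hp
    unfold Fib at hp
    rw [Finset.mem_filter] at hp
    rw [hR p.1 p.2 hp.2, hΔ]
  calc |∑ p ∈ Fib n a₁ a₂ a₃, (rootNumber n (WeierstrassCurve.mk a₁ a₂ a₃ p.1 p.2) : ℝ)|
      = ‖((∑ p ∈ Fib n a₁ a₂ a₃,
      (rootNumber n (WeierstrassCurve.mk a₁ a₂ a₃ p.1 p.2) : ℝ) : ℝ) : ℂ)‖ := by
        rw [Complex.norm_real, Real.norm_eq_abs]
    _ = _ := by rw [h1]
    _ ≤ _ := norm_sum_le _ _

end

theorem s_FB2 (F : Type) [Field F] [Fintype F] (hCL2 : S_CL2 F) (hRN2 : S_RN2 F) (hFSM : S_FSM F)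
    (hCRD : S_CRD F) : S_FB2 F := by
  classical
  intro h2 ε hε
  obtain ⟨C, hC, hFSM⟩ := hFSM ε hε
  have hq : (2 : ℝ) ≤ Fintype.card F := by
    exact_mod_cast Fintype.one_lt_card (α := F)
  refine ⟨C, hC, ?_⟩
  intro n a₁ a₂ a₃ hn
  rcases (Fib n a₁ a₂ a₃).eq_empty_or_nonempty with hemp | ⟨p₀, hp₀⟩
  · rw [hemp]
    simp
  · unfold Fib at hp₀
    rw [Finset.mem_filter, Finset.mem_product] at hp₀
    obtain ⟨⟨hp4, hp6⟩, hp₀⟩ := hp₀
    have hFam := hp₀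
    obtain ⟨g1, g2, g3, g4, g6, g7, g8⟩ := hFam
    simp only at g1 g2 g3
    have hd : a₁.natDegree = n := by
      rw [FB2_c4 h2] at g8
      exact FB2_deg g1 g8 (by norm_num)
    obtain ⟨cl, c1, c2, c3, c4, c5, c6⟩ := hCL2 h2 n a₁ a₂ a₃ hn hd g2 g3
    have hcop : IsCoprime a₁ a₃ := (c6 p₀.1 hp4 p₀.2 hp6).1 hp₀
    have ha0 : a₁ ≠ 0 := by
      rintro rfl
      rw [natDegree_zero] at hd
      omega
    have hb0 : a₁ ^ 6 ≠ 0 := pow_ne_zero _ ha0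
    obtain ⟨M, hM, hbM, hMb⟩ := FB2_monic hb0
    have hMd : M.natDegree = 6 * n := by
      rw [FB2_natDegree hb0 hM.ne_zero hbM hMb, natDegree_pow, hd]
    obtain ⟨χ₀, l, w, hχ, hl, hw, hR⟩ := hRN2 h2 n a₁ a₂ a₃ M hn hd hM hbM hMb
    have hFib : Fib n a₁ a₂ a₃ = Pol F (4 * n) ×ˢ Pol F (6 * n) := by
      unfold Fib
      apply Finset.filter_true_of_mem
      intro p hp
      rw [Finset.mem_product] at hp
      exact (c6 p.1 hp.1 p.2 hp.2).2 hcop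
    refine (FB2_sum n a₁ a₂ a₃ (Pol F (4 * n)) (a₁ ^ 6) cl w (wf (cc χ₀ l)) hFib c2 hR).trans ?_
    refine (hFSM n a₁ (a₁ ^ 6) M cl (Pol F (4 * n)) χ₀ l w hn hM hMd hbM hMb ha0 (by omega)
      (Finset.Subset.refl _) ?_ ?_ ?_ hχ hl hw).trans ?_
    · intro a ha
      refine ⟨c1 a ha, ?_⟩
      exact IsCoprime.of_isCoprime_of_dvd_right (((c3 a).2 hcop).pow_right) hMb
    · intro a a' h
      exact hMb.trans (c4 a a' h)
    · intro a a' h
      exact c5 hcop a a' (hbM.trans h)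
    · rw [hFib, Finset.card_product, hCRD.2, hCRD.2, hd]
      push_cast
      rw [mul_assoc, ← Real.rpow_natCast, ← Real.rpow_natCast, ← Real.rpow_add (by linarith),
        ← Real.rpow_add (by linarith)]
      apply mul_le_mul_of_nonneg_left _ hC.le
      apply Real.rpow_le_rpow_of_exponent_le (by linarith)
      push_cast
      linarith

end Pool.RN
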