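import Pool.Agent.H32.RN.FB2

/-!
# Project RN: module FB3
-/

set_option autoImplicit false
set_option linter.unusedSectionVars false

namespace Pool.RN

open Polynomial

section

variable {F : Type} [Field F] [Fintype F]

theorem FB3_c4 (h : (3 : F) = 0) (W : WeierstrassCurve F[X]) :
    W.c₄ = (W.a₁ ^ 2 + W.a₂) ^ 2 := by
  have h2 : (3 : F[X]) = 0 := by
    have : (C (3 : F)) = (3 : F[X]) := map_ofNat C 3
    rw [← this, h, C_0]
  simp only [WeierstrassCurve.c₄, WeierstrassCurve.b₂, WeierstrassCurve.b₄]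
  linear_combination (2 * W.a₁ ^ 2 * W.a₂ + 5 * W.a₂ ^ 2 -
    8 * (2 * W.a₄ + W.a₁ * W.a₃)) * h2

end

theorem s_FB3 (F : Type) [Field F] [Fintype F] (hCL3 : S_CL3 F) (hRN3 : S_RN3 F) (hFSM : S_FSM F)
    (hPHI : S_PHI F) (hCRD : S_CRD F) : S_FB3 F := by
  classical
  intro h2 ε hε
  obtain ⟨C, hC, hFSM⟩ := hFSM (ε / 2) (by positivity)
  obtain ⟨c, hc, hPHI⟩ := hPHI (ε / 4) (by positivity)
  have hq : (2 : ℝ) ≤ Fintype.card F := by
    exact_mod_cast Fintype.one_lt_card (α := F)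
  refine ⟨C / c, div_pos hC hc, ?_⟩
  intro n a₁ a₂ a₃ hn
  rcases (Fib n a₁ a₂ a₃).eq_empty_or_nonempty with hemp | ⟨p₀, hp₀⟩
  · rw [hemp]
    simp
  · unfold Fib at hp₀
    rw [Finset.mem_filter, Finset.mem_product] at hp₀
    obtain ⟨⟨hp4, hp6⟩, hp₀⟩ := hp₀
    have hFam := hp₀
    obtain ⟨g1, g2, g3, g4, g6, g7, g8⟩ := hFam
    simp only at g1 g2 g3
    have he : (a₁ ^ 2 + a₂).natDegree ≤ 2 * n := by
      refine (natDegree_add_le _ _).trans (max_le ?_ g2)
      exact (natDegree_pow_le).trans (by gcongr)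
    have hd : (a₁ ^ 2 + a₂).natDegree = 2 * n := by
      rw [FB3_c4 h2, show 4 * n = 2 * (2 * n) by ring] at g8
      exact FB2_deg he g8 (by norm_num)
    obtain ⟨cl, c1, c2, c3, c4, c5, c6⟩ := hCL3 h2 n a₁ a₂ a₃ hn g1 g2 g3 hd
    set e : F[X] := a₁ ^ 2 + a₂ with hedef
    have ha0 : e ≠ 0 := by
      intro h0
      rw [h0, natDegree_zero] at hd
      omega
    have hb0 : e ^ 3 ≠ 0 := pow_ne_zero _ ha0
    obtain ⟨M, hM, hbM, hMb⟩ := FB2_monic hb0
    have hMd : M.natDegree = 6 * n := by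
      rw [FB2_natDegree hb0 hM.ne_zero hbM hMb, natDegree_pow, hd]
      ring
    obtain ⟨χ₀, l, w, hχ, hl, hw, hR⟩ := hRN3 h2 n a₁ a₂ a₃ M hn hd hM hbM hMb
    set T : Finset F[X] := (Pol F (4 * n)).filter (fun a => IsCoprime (a₁ * a₃ - a) e) with hT
    have hFib : Fib n a₁ a₂ a₃ = T ×ˢ Pol F (6 * n) := by
      unfold Fib
      ext p
      rw [Finset.mem_filter, Finset.mem_product, Finset.mem_product, hT, Finset.mem_filter]
      constructor
      · rintro ⟨⟨h1, h3⟩, h4⟩
        exact ⟨⟨h1, (c6 p.1 h1 p.2 h3).1 h4⟩, h3⟩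
      · rintro ⟨⟨h1, h4⟩, h3⟩
        exact ⟨⟨h1, h3⟩, (c6 p.1 h1 p.2 h3).2 h4⟩
    refine (FB2_sum n a₁ a₂ a₃ T (-e ^ 3) cl w (wf (cc χ₀ l)) hFib c2 hR).trans ?_
    refine (hFSM n e (-e ^ 3) M cl T χ₀ l w hn hM hMd (by rw [neg_dvd]; exact hbM)
      (by rw [dvd_neg]; exact hMb) ha0 (by omega)
      (Finset.filter_subset _ _) ?_ ?_ ?_ hχ hl hw).trans ?_
    · intro a ha
      rw [hT, Finset.mem_filter] at ha
      refine ⟨c1 a ha.1, ?_⟩
      exact IsCoprime.of_isCoprime_of_dvd_right (((c3 a).2 ha.2).pow_right) hMb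
    · intro a a' h
      exact hMb.trans (c4 a a' h)
    · intro a a' h
      exact c5 a a' (hbM.trans h)
    · have hcard : {a ∈ (Pol F (4 * n) : Set F[X]) | IsCoprime a e}.ncard = T.card := by
        rw [← Set.ncard_coe_finset T]
        have h5 : ({a ∈ (Pol F (4 * n) : Set F[X]) | IsCoprime a e}) =
            (fun a => a₁ * a₃ - a) '' (T : Set F[X]) := by
          have h6 : (a₁ * a₃).natDegree ≤ 4 * n :=
            (natDegree_mul_le).trans (by omega)
          ext a
          simp only [Set.mem_setOf_eq, Finset.mem_coe, Set.mem_image, hT, Finset.mem_filter,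
            mem_Pol]
          constructor
          · rintro ⟨h7, h8⟩
            refine ⟨a₁ * a₃ - a, ⟨?_, ?_⟩, by ring⟩
            · exact (natDegree_sub_le _ _).trans (max_le h6 h7)
            · rw [sub_sub_cancel]
              exact h8
          · rintro ⟨b, ⟨h7, h8⟩, rfl⟩
            exact ⟨(natDegree_sub_le _ _).trans (max_le h6 h7), h8⟩
        rw [h5, Set.ncard_image_of_injective]
        intro x y hxy
        simpa using hxy
      have hphi := hPHI e (4 * n) ha0 (by omega)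
      rw [hcard, hd] at hphi
      rw [hFib, Finset.card_product, hCRD.2, hd]
      push_cast at hphi ⊢
      have hqp : (0 : ℝ) < Fintype.card F := by linarith
      calc C * (Fintype.card F : ℝ) ^ ((10 + ε / 2) * (n : ℝ) - 2 * n / 2)
          ≤ C * ((Fintype.card F : ℝ) ^ (-(1 - ε) * (n : ℝ)) *
            ((Fintype.card F : ℝ) ^ (4 * (n : ℝ) - ε / 4 * (2 * n)) *
              (Fintype.card F : ℝ) ^ (6 * n + 1))) := by
            apply mul_le_mul_of_nonneg_left _ hC.le
            rw [← Real.rpow_natCast, ← Real.rpow_add hqp, ← Real.rpow_add hqp]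
            apply Real.rpow_le_rpow_of_exponent_le (by linarith)
            push_cast
            linarith
        _ = C / c * (Fintype.card F : ℝ) ^ (-(1 - ε) * (n : ℝ)) *
            (c * (Fintype.card F : ℝ) ^ (4 * (n : ℝ) - ε / 4 * (2 * n)) *
              (Fintype.card F : ℝ) ^ (6 * n + 1)) := by
            field_simp
        _ ≤ _ := by
            gcongr

end Pool.RN
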