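import Pool.Agent.H48.RN.Stmts1

/-!
# Project RN: module LGB
-/

set_option autoImplicit false
set_option linter.unusedSectionVars false

namespace Pool.RN

open Polynomial

section

variable {F : Type} [Field F] [Fintype F]

theorem LGB_swap (n : ℕ) (H : ℕ → F[X] → ℕ → ℂ) :
    ∑ j ∈ Finset.Icc 1 n, ∑ d ∈ j.divisors, ∑ P ∈ Irr F d, H d P (j / d) =
    ∑ d ∈ Finset.Icc 1 n, ∑ P ∈ Irr F d, ∑ i ∈ Finset.Icc 1 (n / d), H d P i := by
  rw [Finset.sum_comm' (t' := Finset.Icc 1 n)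
    (s' := fun d => (Finset.Icc 1 n).filter (fun j => d ∣ j))]
  · apply Finset.sum_congr rfl
    intro d hd
    rw [Finset.sum_comm]
    apply Finset.sum_congr rfl
    intro P _
    have hd1 : 1 ≤ d := (Finset.mem_Icc.1 hd).1
    refine Finset.sum_nbij' (fun j => j / d) (fun i => d * i) ?_ ?_ ?_ ?_ ?_
    · intro j hj
      rw [Finset.mem_filter, Finset.mem_Icc] at hj
      obtain ⟨⟨h1, h2⟩, c, rfl⟩ := hj
      have hc : 1 ≤ c := Nat.pos_of_ne_zero (by rintro rfl; simp at h1)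
      have h3 : d * c / d = c := Nat.mul_div_cancel_left c (by omega)
      simp only [h3, Finset.mem_Icc]
      exact ⟨hc, (Nat.le_div_iff_mul_le (by omega)).2 (by rw [mul_comm]; exact h2)⟩
    · intro i hi
      rw [Finset.mem_Icc] at hi
      simp only [Finset.mem_filter, Finset.mem_Icc]
      have h2 := (Nat.le_div_iff_mul_le (by omega)).1 hi.2
      refine ⟨⟨Nat.mul_pos hd1 hi.1, by rw [mul_comm]; exact h2⟩, Dvd.intro _ rfl⟩
    · intro j hj
      rw [Finset.mem_filter, Finset.mem_Icc] at hj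
      exact Nat.mul_div_cancel' hj.2
    · intro i _
      exact Nat.mul_div_cancel_left i (by omega)
    · intro j _
      rfl
  · intro j d
    simp only [Finset.mem_Icc, Nat.mem_divisors, Finset.mem_filter]
    constructor
    · rintro ⟨⟨h1, h2⟩, h3, h4⟩
      refine ⟨⟨⟨h1, h2⟩, h3⟩, Nat.pos_of_dvd_of_pos h3 (by omega), (Nat.le_of_dvd (by omega) h3).trans h2⟩
    · rintro ⟨⟨⟨h1, h2⟩, h3⟩, h4, h5⟩
      exact ⟨⟨h1, h2⟩, h3, by omega⟩

open Classical in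
theorem LGB_shift {Q : F[X]} (hQ : Q.Monic) {n : ℕ} (hn : Q.natDegree ≤ n) (φ : F[X] → ℂ) :
    ∑ g ∈ Mon F (n - Q.natDegree), φ (Q * g) = ∑ f ∈ (Mon F n).filter (fun f => Q ∣ f), φ f := by
  refine Finset.sum_bij (fun g _ => Q * g) ?_ ?_ ?_ ?_
  · intro g hg
    rw [mem_Mon] at hg
    rw [Finset.mem_filter, mem_Mon]
    refine ⟨⟨hQ.mul hg.1, ?_⟩, Dvd.intro _ rfl⟩
    rw [hQ.natDegree_mul hg.1, hg.2]
    omega
  · intro g _ g' _ h
    exact mul_left_cancel₀ hQ.ne_zero h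
  · intro f hf
    rw [Finset.mem_filter, mem_Mon] at hf
    obtain ⟨⟨h1, h2⟩, g, rfl⟩ := hf
    have hg : g.Monic := hQ.of_mul_monic_left h1
    refine ⟨g, ?_, rfl⟩
    rw [mem_Mon]
    refine ⟨hg, ?_⟩
    rw [hQ.natDegree_mul hg] at h2
    omega
  · intro g _
    rfl

theorem LGB_dvd_iff {P f : F[X]} (hP : P.Monic) (hP' : Irreducible P) (hf : f ≠ 0) (i : ℕ) :
    P ^ i ∣ f ↔ i ≤ vv P f := by
  classical
  rw [pow_dvd_iff_le_emultiplicity,
    UniqueFactorizationMonoid.emultiplicity_eq_count_normalizedFactors hP' hf, Nat.cast_le,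
    hP.normalize_eq_self]
  unfold vv
  rfl

theorem LGB_deg {f : F[X]} (hf : f.Monic) : f.natDegree = ∑ P ∈ pf f, P.natDegree * vv P f := by
  classical
  have h1 := UniqueFactorizationMonoid.prod_normalizedFactors_eq hf.ne_zero
  rw [hf.normalize_eq_self] at h1
  have h2 : ∀ P ∈ UniqueFactorizationMonoid.normalizedFactors f, P.Monic := by
    intro P hP
    have := (mem_pf hf.ne_zero (P := P)).1 (by unfold pf; rw [Multiset.mem_toFinset]; exact hP)
    exact this.1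
  conv_lhs => rw [← h1]
  rw [natDegree_multiset_prod_of_monic _ h2, Finset.sum_multiset_map_count]
  unfold pf vv
  apply Finset.sum_congr rfl
  intro P _
  rw [smul_eq_mul, mul_comm]

theorem LGB_mem_pf_iff {f P : F[X]} (hP : P.Monic) (hP' : Irreducible P) (hf : f ≠ 0) :
    P ∈ pf f ↔ 1 ≤ vv P f := by
  rw [mem_pf hf, ← LGB_dvd_iff hP hP' hf, pow_one]
  exact ⟨fun h => h.2.2, fun h => ⟨hP, hP', h⟩⟩

open Classical in
theorem LGB_count {n : ℕ} {f : F[X]} (hf : f ∈ Mon F n) :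
    ∑ d ∈ Finset.Icc 1 n, ∑ P ∈ Irr F d, ∑ i ∈ Finset.Icc 1 (n / d),
      (if P ^ i ∣ f then d else 0) = n := by
  rw [mem_Mon] at hf
  obtain ⟨hf1, hf2⟩ := hf
  have h0 : f ≠ 0 := hf1.ne_zero
  have h1 : ∀ P ∈ pf f, P.natDegree ∈ Finset.Icc 1 n := by
    intro P hP
    rw [mem_pf h0] at hP
    rw [Finset.mem_Icc]
    exact ⟨hP.2.1.natDegree_pos, hf2 ▸ natDegree_le_of_dvd hP.2.2 h0⟩
  conv_rhs => rw [← hf2, LGB_deg hf1, ← Finset.sum_fiberwise_of_maps_to h1]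
  apply Finset.sum_congr rfl
  intro d hd
  have hd1 : 1 ≤ d := (Finset.mem_Icc.1 hd).1
  have h2 : ∀ P ∈ Irr F d, ∑ i ∈ Finset.Icc 1 (n / d), (if P ^ i ∣ f then d else 0) =
      d * vv P f := by
    intro P hP
    rw [mem_Irr] at hP
    obtain ⟨⟨hP1, hP2⟩, hP3⟩ := hP
    have h3 : vv P f ≤ n / d := by
      rw [Nat.le_div_iff_mul_le (by omega)]
      have h4 : P ^ (vv P f) ∣ f := (LGB_dvd_iff hP1 hP3 h0 _).2 le_rfl
      have h5 := natDegree_le_of_dvd h4 h0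
      rw [natDegree_pow, hP2, hf2] at h5
      exact h5
    rw [← Finset.sum_filter, Finset.sum_const, smul_eq_mul, mul_comm]
    congr 1
    have h6 : (Finset.Icc 1 (n / d)).filter (fun i => P ^ i ∣ f) = Finset.Icc 1 (vv P f) := by
      ext i
      rw [Finset.mem_filter, Finset.mem_Icc, Finset.mem_Icc, LGB_dvd_iff hP1 hP3 h0]
      omega
    rw [h6, Nat.card_Icc]
    omega
  rw [Finset.sum_congr rfl h2]
  symm
  have h7 : (pf f).filter (fun P => P.natDegree = d) ⊆ Irr F d := by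
    intro P hP
    rw [Finset.mem_filter, mem_pf h0] at hP
    rw [mem_Irr]
    exact ⟨⟨hP.1.1, hP.2⟩, hP.1.2.1⟩
  rw [← Finset.sum_subset h7]
  · apply Finset.sum_congr rfl
    intro P hP
    rw [(Finset.mem_filter.1 hP).2]
  · intro P hP hP'
    rw [mem_Irr] at hP
    rw [Finset.mem_filter, LGB_mem_pf_iff hP.1.1 hP.2 h0] at hP'
    have : vv P f = 0 := by
      by_contra h
      exact hP' ⟨by omega, hP.1.2⟩
    rw [this, mul_zero]

theorem LGB_pow {ψ : F[X] → ℂ} (hψ : CMul ψ) (P : F[X]) (i : ℕ) : ψ (P ^ i) = ψ P ^ i := by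
  induction i with
  | zero => simp [hψ.one]
  | succ i ih => rw [pow_succ, hψ.mul, ih, pow_succ]

end

open Classical in
theorem s_LGB (F : Type) [Field F] [Fintype F] : S_LGB F := by
  intro ψ hψ n
  have h1 : ∑ j ∈ Finset.Icc 1 n, aa ψ j * bb ψ (n - j) =
      ∑ j ∈ Finset.Icc 1 n, ∑ d ∈ j.divisors, ∑ P ∈ Irr F d,
        (d : ℂ) * ψ P ^ (j / d) * bb ψ (n - d * (j / d)) := by
    apply Finset.sum_congr rfl
    intro j _
    unfold aa
    rw [Finset.sum_mul]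
    apply Finset.sum_congr rfl
    intro d hd
    rw [Finset.sum_mul, Nat.mul_div_cancel' (Nat.dvd_of_mem_divisors hd)]
  rw [h1, LGB_swap n (fun d P i => (d : ℂ) * ψ P ^ i * bb ψ (n - d * i))]
  have h2 : ∀ d ∈ Finset.Icc 1 n, ∀ P ∈ Irr F d, ∀ i ∈ Finset.Icc 1 (n / d),
      (d : ℂ) * ψ P ^ i * bb ψ (n - d * i) =
      ∑ f ∈ Mon F n, ψ f * ((if P ^ i ∣ f then d else 0 : ℕ) : ℂ) := by
    intro d hd P hP i hi
    rw [mem_Irr] at hP
    obtain ⟨⟨hP1, hP2⟩, hP3⟩ := hP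
    have hd1 : 1 ≤ d := (Finset.mem_Icc.1 hd).1
    have h3 := (Nat.le_div_iff_mul_le (by omega)).1 (Finset.mem_Icc.1 hi).2
    have h4 : (P ^ i).natDegree = d * i := by rw [natDegree_pow, hP2, mul_comm]
    have h5 : (P ^ i).natDegree ≤ n := by rw [h4, mul_comm]; exact h3
    have h6 := LGB_shift (hP1.pow i) h5 ψ
    rw [h4] at h6
    unfold bb
    rw [Finset.mul_sum]
    have h7 : ∑ g ∈ Mon F (n - d * i), (d : ℂ) * ψ P ^ i * ψ g =
        (d : ℂ) * ∑ g ∈ Mon F (n - d * i), ψ (P ^ i * g) := by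
      rw [Finset.mul_sum]
      apply Finset.sum_congr rfl
      intro g _
      rw [hψ.mul, LGB_pow hψ, mul_assoc]
    rw [h7, h6, Finset.sum_filter, Finset.mul_sum]
    apply Finset.sum_congr rfl
    intro f _
    split_ifs <;> push_cast <;> ring
  rw [Finset.sum_congr rfl (fun d hd => Finset.sum_congr rfl (fun P hP => Finset.sum_congr rfl
    (fun i hi => h2 d hd P hP i hi)))]
  have h8 : ∑ d ∈ Finset.Icc 1 n, ∑ P ∈ Irr F d, ∑ i ∈ Finset.Icc 1 (n / d),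
      ∑ f ∈ Mon F n, ψ f * ((if P ^ i ∣ f then d else 0 : ℕ) : ℂ) =
      ∑ f ∈ Mon F n, ψ f * ((∑ d ∈ Finset.Icc 1 n, ∑ P ∈ Irr F d, ∑ i ∈ Finset.Icc 1 (n / d),
        (if P ^ i ∣ f then d else 0) : ℕ) : ℂ) := by
    have h9 : ∀ d ∈ Finset.Icc 1 n, ∑ P ∈ Irr F d, ∑ i ∈ Finset.Icc 1 (n / d),
        ∑ f ∈ Mon F n, ψ f * ((if P ^ i ∣ f then d else 0 : ℕ) : ℂ) =
        ∑ f ∈ Mon F n, ∑ P ∈ Irr F d, ∑ i ∈ Finset.Icc 1 (n / d),
          ψ f * ((if P ^ i ∣ f then d else 0 : ℕ) : ℂ) := by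
      intro d _
      have h10 : ∀ P ∈ Irr F d, ∑ i ∈ Finset.Icc 1 (n / d),
          ∑ f ∈ Mon F n, ψ f * ((if P ^ i ∣ f then d else 0 : ℕ) : ℂ) =
          ∑ f ∈ Mon F n, ∑ i ∈ Finset.Icc 1 (n / d),
            ψ f * ((if P ^ i ∣ f then d else 0 : ℕ) : ℂ) := fun P _ => Finset.sum_comm
      rw [Finset.sum_congr rfl h10]
      exact Finset.sum_comm
    rw [Finset.sum_congr rfl h9, Finset.sum_comm]
    apply Finset.sum_congr rfl
    intro f _
    push_cast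
    simp only [Finset.mul_sum]
  rw [h8]
  unfold bb
  rw [Finset.mul_sum]
  apply Finset.sum_congr rfl
  intro f hf
  rw [LGB_count hf, mul_comm]

end Pool.RN
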