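import Pool.Agent.H32.RN.LGB

/-!
# Project RN: module LGM
-/

set_option autoImplicit false
set_option linter.unusedSectionVars false

namespace Pool.RN

open Polynomial

section

variable {F : Type} [Field F] [Fintype F]

theorem LGM_mu_mul {P g : F[X]} (hP : P.Monic) (hP' : Irreducible P) (hg : g ≠ 0)
    (h : ¬ P ∣ g) : mu (P * g) = - mu g := by
  classical
  have hco : IsCoprime P g := (hP'.coprime_iff_not_dvd).2 h
  have h1 : pf (P * g) = insert P (pf g) := by
    ext Q
    rw [Finset.mem_insert, mem_pf (mul_ne_zero hP.ne_zero hg), mem_pf hg]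
    constructor
    · rintro ⟨h1, h2, h3⟩
      rcases h2.prime.dvd_or_dvd h3 with h4 | h4
      · left
        exact eq_of_monic_of_associated h1 hP (h2.associated_of_dvd hP' h4)
      · right
        exact ⟨h1, h2, h4⟩
    · rintro (rfl | ⟨h1, h2, h3⟩)
      · exact ⟨hP, hP', dvd_mul_right _ _⟩
      · exact ⟨h1, h2, h3.mul_left _⟩
  have h2 : P ∉ pf g := by
    rw [mem_pf hg]
    exact fun h3 => h h3.2.2
  unfold mu
  rw [h1, Finset.card_insert_of_notMem h2]
  by_cases hs : Squarefree g
  · have h3 : Squarefree (P * g) := by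
      rw [squarefree_mul_iff]
      exact ⟨hco.isRelPrime, hP'.squarefree, hs⟩
    rw [if_pos h3, if_pos hs, pow_succ]
    ring
  · have h3 : ¬ Squarefree (P * g) := fun h4 => hs (h4.squarefree_of_dvd (dvd_mul_left _ _))
    rw [if_neg h3, if_neg hs, neg_zero]

theorem LGM_mu_sq {P g : F[X]} (hP' : Irreducible P) (h : P ∣ g) : mu (P * g) = 0 := by
  unfold mu
  rw [if_neg]
  intro h3
  exact hP'.not_isUnit (h3 P (mul_dvd_mul_left P h))

open Classical in
/-- The sum over the polynomials not divisible by `P`. -/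
noncomputable def LGM_S (ψ : F[X] → ℂ) (P : F[X]) (N : ℕ) : ℂ :=
  ∑ g ∈ (Mon F N).filter (fun g => ¬ P ∣ g), mu g * ψ g

open Classical in
theorem LGM_div {ψ : F[X] → ℂ} (hψ : CMul ψ) {P : F[X]} (hP : P.Monic) (hP' : Irreducible P)
    {N : ℕ} (hN : P.natDegree ≤ N) :
    ∑ f ∈ (Mon F N).filter (fun f => P ∣ f), mu f * ψ f =
      - ψ P * LGM_S ψ P (N - P.natDegree) := by
  rw [← LGB_shift hP hN (fun f => mu f * ψ f)]
  unfold LGM_S
  rw [Finset.sum_filter, Finset.mul_sum]
  apply Finset.sum_congr rfl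
  intro g hg
  rw [mem_Mon] at hg
  by_cases h : P ∣ g
  · rw [if_neg (not_not.2 h), LGM_mu_sq hP' h]
    ring
  · rw [if_pos h, LGM_mu_mul hP hP' hg.1.ne_zero h, hψ.mul]
    ring

theorem LGM_rec {ψ : F[X] → ℂ} (hψ : CMul ψ) {P : F[X]} (hP : P.Monic) (hP' : Irreducible P)
    (N : ℕ) : LGM_S ψ P N = ∑ i ∈ Finset.range (N / P.natDegree + 1),
      ψ P ^ i * mm ψ (N - P.natDegree * i) := by
  classical
  have hd : 1 ≤ P.natDegree := hP'.natDegree_pos
  induction N using Nat.strong_induction_on with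
  | _ N ih =>
    have h1 : mm ψ N = LGM_S ψ P N + ∑ f ∈ (Mon F N).filter (fun f => P ∣ f), mu f * ψ f := by
      unfold mm LGM_S
      rw [add_comm, Finset.sum_filter_add_sum_filter_not]
    by_cases hN : P.natDegree ≤ N
    · rw [LGM_div hψ hP hP' hN, ih (N - P.natDegree) (by omega)] at h1
      have h2 : N / P.natDegree = (N - P.natDegree) / P.natDegree + 1 := by
        rw [← Nat.add_div_right _ (by omega)]
        congr 1
        omega
      rw [h2, Finset.sum_range_succ', Nat.mul_zero, Nat.sub_zero, pow_zero, one_mul, h1,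
        Finset.mul_sum]
      have h3 : ∀ i ∈ Finset.range ((N - P.natDegree) / P.natDegree + 1),
          ψ P ^ (i + 1) * mm ψ (N - P.natDegree * (i + 1)) =
          - (- ψ P * (ψ P ^ i * mm ψ (N - P.natDegree - P.natDegree * i))) := by
        intro i _
        have h4 : N - P.natDegree * (i + 1) = N - P.natDegree - P.natDegree * i := by
          rw [mul_add, mul_one]; omega
        rw [h4]
        ring
      rw [Finset.sum_congr rfl h3, Finset.sum_neg_distrib]
      ring
    · rw [Finset.filter_false_of_mem, Finset.sum_empty, add_zero] at h1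
      · rw [← h1, Nat.div_eq_of_lt (by omega)]
        simp
      · intro f hf hPf
        rw [mem_Mon] at hf
        have := natDegree_le_of_dvd hPf hf.1.ne_zero
        omega

end

open Classical in
theorem s_LGM (F : Type) [Field F] [Fintype F] (_hLGB : S_LGB F) : S_LGM F := by
  intro ψ hψ n
  have h1 : ∑ j ∈ Finset.Icc 1 n, (- aa ψ j) * mm ψ (n - j) =
      ∑ j ∈ Finset.Icc 1 n, ∑ d ∈ j.divisors, ∑ P ∈ Irr F d,
        (- ((d : ℂ) * ψ P ^ (j / d)) * mm ψ (n - d * (j / d))) := by
    apply Finset.sum_congr rfl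
    intro j _
    unfold aa
    rw [neg_mul, Finset.sum_mul, ← Finset.sum_neg_distrib]
    apply Finset.sum_congr rfl
    intro d hd
    rw [Finset.sum_mul, Nat.mul_div_cancel' (Nat.dvd_of_mem_divisors hd), ← Finset.sum_neg_distrib]
    apply Finset.sum_congr rfl
    intro P _
    ring
  rw [h1, LGB_swap n (fun d P i => - ((d : ℂ) * ψ P ^ i) * mm ψ (n - d * i))]
  have h2 : ∀ d ∈ Finset.Icc 1 n, ∀ P ∈ Irr F d,
      ∑ i ∈ Finset.Icc 1 (n / d), - ((d : ℂ) * ψ P ^ i) * mm ψ (n - d * i) =
      ∑ f ∈ Mon F n, (if P ∣ f then (d : ℂ) * (mu f * ψ f) else 0) := by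
    intro d hd P hP
    rw [mem_Irr] at hP
    obtain ⟨⟨hP1, hP2⟩, hP3⟩ := hP
    rw [Finset.mem_Icc] at hd
    have h3 := LGM_div hψ hP1 hP3 (N := n) (by omega)
    rw [LGM_rec hψ hP1 hP3, hP2] at h3
    rw [← Finset.sum_filter, ← Finset.mul_sum, h3]
    have h4 : n / d = (n - d) / d + 1 := by
      rw [← Nat.add_div_right _ (by omega)]
      congr 1
      omega
    rw [h4]
    have h5 : Finset.Icc 1 ((n - d) / d + 1) = (Finset.range ((n - d) / d + 1)).image (· + 1) := by
      ext i
      simp only [Finset.mem_Icc, Finset.mem_image, Finset.mem_range]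
      constructor
      · rintro ⟨h6, h7⟩
        exact ⟨i - 1, by omega, by omega⟩
      · rintro ⟨j, h6, rfl⟩
        omega
    rw [h5, Finset.sum_image (fun a _ b _ h => by omega), Finset.mul_sum, Finset.mul_sum]
    apply Finset.sum_congr rfl
    intro i _
    have h6 : n - d * (i + 1) = n - d - d * i := by rw [mul_add, mul_one]; omega
    rw [h6]
    ring
  rw [Finset.sum_congr rfl (fun d hd => Finset.sum_congr rfl (fun P hP => h2 d hd P hP))]
  have h9 : ∀ d ∈ Finset.Icc 1 n, ∑ P ∈ Irr F d,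
      ∑ f ∈ Mon F n, (if P ∣ f then (d : ℂ) * (mu f * ψ f) else 0) =
      ∑ f ∈ Mon F n, ∑ P ∈ Irr F d, (if P ∣ f then (d : ℂ) * (mu f * ψ f) else 0) :=
    fun d _ => Finset.sum_comm
  rw [Finset.sum_congr rfl h9, Finset.sum_comm]
  unfold mm
  rw [Finset.mul_sum]
  apply Finset.sum_congr rfl
  intro f hf
  by_cases hs : Squarefree f
  · have h0 : f ≠ 0 := ((mem_Mon).1 hf).1.ne_zero
    have h10 : ∀ d ∈ Finset.Icc 1 n, ∀ P ∈ Irr F d,
        (if P ∣ f then (d : ℂ) * (mu f * ψ f) else 0) =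
        ((∑ i ∈ Finset.Icc 1 (n / d), (if P ^ i ∣ f then d else 0) : ℕ) : ℂ) * (mu f * ψ f) := by
      intro d hd P hP
      rw [mem_Irr] at hP
      obtain ⟨⟨hP1, hP2⟩, hP3⟩ := hP
      rw [Finset.mem_Icc] at hd
      have h11 : 1 ∈ Finset.Icc 1 (n / d) := by
        rw [Finset.mem_Icc]
        exact ⟨le_rfl, (Nat.le_div_iff_mul_le (by omega)).2 (by omega)⟩
      rw [← Finset.add_sum_erase _ _ h11, pow_one, Finset.sum_eq_zero, add_zero]
      · split_ifs <;> push_cast <;> ring
      · intro i hi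
        rw [Finset.mem_erase, Finset.mem_Icc] at hi
        rw [if_neg]
        intro h12
        have h13 : P * P ∣ f := (by rw [← sq]; exact (pow_dvd_pow P (by omega)).trans h12)
        exact hP3.not_isUnit (hs P h13)
    rw [Finset.sum_congr rfl (fun d hd => Finset.sum_congr rfl (fun P hP => h10 d hd P hP))]
    conv_lhs => rw [← LGB_count hf]
    push_cast
    simp only [Finset.sum_mul]
  · have h10 : mu f = 0 := by
      unfold mu
      rw [if_neg hs]
    rw [h10]
    simp

end Pool.RN
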