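import Pool.Agent.H48.RN.Stmts2

/-!
# Project RN: module STV
-/

set_option autoImplicit false
set_option linter.unusedSectionVars false

namespace Pool.RN

open Polynomial

section

variable {F k : Type} [Field F] [Fintype F] [Field k] [Algebra F k]

theorem STV_tw_mul (A B : k[X]) : tw F (A * B) = tw F A * tw F B := by
  unfold tw
  exact Polynomial.map_mul _

theorem STV_tw_sub (A B : k[X]) : tw F (A - B) = tw F A - tw F B := by
  unfold tw
  exact Polynomial.map_sub _

theorem STV_tw_base (g : F[X]) : tw F (g.map (algebraMap F k)) = g.map (algebraMap F k) := by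
  unfold tw
  rw [Polynomial.map_map]
  congr 1
  ext a
  exact (FiniteField.frobeniusAlgHom F k).commutes a

theorem STV_tw_dvd {A B : k[X]} (h : A ∣ B) : tw F A ∣ tw F B := by
  obtain ⟨C, rfl⟩ := h
  rw [STV_tw_mul]
  exact dvd_mul_right _ _

theorem STV_frr_succ (i : ℕ) (A : k[X]) : A.map (frr F k (i + 1)) = tw F (A.map (frr F k i)) := by
  unfold tw
  rw [Polynomial.map_map]
  congr 1
  ext a
  rw [frr_apply, RingHom.comp_apply, frr_apply, pow_succ, pow_mul]
  exact ((FiniteField.frobeniusAlgHom_apply F k _).symm : _)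

theorem STV_tw_Nrm (x : k) (i : ℕ) : tw F (Nrm F x i) * (X - C x) = Nrm F x (i + 1) := by
  unfold Nrm tw
  rw [Polynomial.map_prod, Finset.prod_range_succ']
  congr 1
  · apply Finset.prod_congr rfl
    intro l _
    rw [Polynomial.map_sub, Polynomial.map_X, Polynomial.map_C]
    congr 2
    have : (FiniteField.frobeniusAlgHom F k).toRingHom (x ^ Fintype.card F ^ l) =
        (x ^ Fintype.card F ^ l) ^ Fintype.card F := FiniteField.frobeniusAlgHom_apply F k _
    rw [this, ← pow_mul, pow_succ]
  · rw [pow_zero, pow_one]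

theorem STV_iter {M : F[X]} {x1 : k} {Y1 : k[X]}
    (h : M.map (algebraMap F k) ∣ tw F Y1 - (X - C x1) * Y1) (i : ℕ) :
    M.map (algebraMap F k) ∣ Y1.map (frr F k i) - Nrm F x1 i * Y1 := by
  induction i with
  | zero =>
    have h1 : Y1.map (frr F k 0) = Y1 := by
      have : frr F k 0 = RingHom.id k := by
        ext a
        rw [frr_apply]
        simp
      rw [this, Polynomial.map_id]
    rw [h1]
    unfold Nrm
    simp
  | succ i ih =>
    have h1 := STV_tw_dvd (F := F) ih
    rw [STV_tw_base, STV_tw_sub, ← STV_frr_succ, STV_tw_mul] at h1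
    have h2 := (h.mul_left (tw F (Nrm F x1 i)))
    have h3 := dvd_add h1 h2
    have h4 : Y1.map (frr F k (i + 1)) - tw F (Nrm F x1 i) * tw F Y1 +
        tw F (Nrm F x1 i) * (tw F Y1 - (X - C x1) * Y1) =
        Y1.map (frr F k (i + 1)) - Nrm F x1 (i + 1) * Y1 := by
      rw [← STV_tw_Nrm]
      ring
    rw [h4] at h3
    exact h3

end

theorem s_STV {F k : Type} [Field F] [Fintype F] [Field k] [Algebra F k] [IsAlgClosed k]
    [Algebra.IsAlgebraic F k] (M : F[X]) (Y : (EE k)[X]) (hM : M.Monic) (hm : 1 ≤ M.natDegree)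
    (_hY : Good M Y)
    (hPTQ : S_PTQ M Y) (hEVA : S_EVA F k) (hNMI : S_NMI F k) : S_STV M Y := by
  intro j hj c x1 Y1 hx1 _ hpt hc P
  have hMm : (M.map (algebraMap F k)).Monic := hM.map _
  have hdeg : (M.map (algebraMap F k)).degree = M.degree := hM.degree_map _
  obtain ⟨hE1, -, hE3⟩ := hEVA M hM hm k x1 Y1 c hpt.1
  rw [← hE3]
  have h1 := STV_iter (hPTQ x1 Y1 hpt) j
  have h2 : Y1.map (frr F k j) = act M c Y1 := by
    have h3 : M.map (algebraMap F k) ∣ Y1.map (frr F k j) - c.map (algebraMap F k) * Y1 := by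
      rw [← (hNMI j hj x1 hx1).2] at h1
      have h4 := (Polynomial.map_dvd (algebraMap F k) hc).mul_right Y1
      have h5 := dvd_add h1 h4
      rw [Polynomial.map_sub] at h5
      have h6 : Y1.map (frr F k j) - (nm F x1 j).map (algebraMap F k) * Y1 +
          ((nm F x1 j).map (algebraMap F k) - c.map (algebraMap F k)) * Y1 =
          Y1.map (frr F k j) - c.map (algebraMap F k) * Y1 := by ring
      rw [h6] at h5
      exact h5
    have h4 : M.map (algebraMap F k) ∣ Y1.map (frr F k j) - act M c Y1 := by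
      have h5 : M.map (algebraMap F k) ∣ c.map (algebraMap F k) * Y1 - act M c Y1 := by
        unfold act
        rw [modByMonic_eq_sub_mul_div, sub_sub_cancel]
        exact dvd_mul_right _ _
      have h6 := dvd_add h3 h5
      rwa [sub_add_sub_cancel] at h6
    have h5 : (Y1.map (frr F k j) - act M c Y1).degree < (M.map (algebraMap F k)).degree := by
      refine lt_of_le_of_lt (degree_sub_le _ _) (max_lt ?_ (by rw [hdeg]; exact hE1))
      rw [hdeg]
      exact lt_of_le_of_lt degree_map_le hpt.1
    exact sub_eq_zero.1 (eq_zero_of_dvd_of_degree_lt h4 h5)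
  rw [← h2]
  have h3 : x1 ^ (Fintype.card F ^ j) = x1 := (mem_Fx hj).1 hx1
  rw [← frr_apply]
  unfold ev
  rw [MvPolynomial.aeval_def, MvPolynomial.aeval_def, MvPolynomial.eval₂_map, MvPolynomial.hom_eval₂]
  congr 1
  funext o
  cases o with
  | none =>
    simp only [Option.elim_none]
    rw [frr_apply, h3]
  | some i =>
    simp only [Option.elim_some]
    rw [Polynomial.coeff_map]

end Pool.RN
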